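import Pool.Agent.Q97.UM.Stm18

set_option autoImplicit false

open Pool.Agent Pool.Agent.Q97.UM
open Filter Topology MeasureTheory Complex

namespace Pool.Agent.Q96.UM

noncomputable section

/-- the sum of the `n^(-3/2)` -/
def Z0 : ℝ := ∑' n : ℕ, ((n : ℝ) ^ (3 / 2 : ℝ))⁻¹

lemma Z0_sum : Summable fun n : ℕ => ((n : ℝ) ^ (3 / 2 : ℝ))⁻¹ :=
  Real.summable_nat_rpow_inv.2 (by norm_num)

lemma Z0_le (s : Finset ℕ) : ∑ n ∈ s, ((n : ℝ) ^ (3 / 2 : ℝ))⁻¹ ≤ Z0 :=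
  Z0_sum.sum_le_tsum s fun n _ => by positivity

lemma Z0_nonneg : 0 ≤ Z0 := tsum_nonneg fun n => by positivity

lemma log_tail {z : ℂ} (hz : ‖z‖ ≤ 3 / 4) :
    |-Real.log ‖1 - z‖ - z.re - 1 / 2 * (z ^ 2).re| ≤ 2 * ‖z‖ ^ 3 := by
  have h1 : ‖-z‖ < 1 := by rw [norm_neg]; linarith
  have h2 := Complex.norm_log_sub_logTaylor_le 2 h1
  have h3 : logTaylor (2 + 1) (-z) = -z - z ^ 2 / 2 := by
    rw [logTaylor_succ, logTaylor_succ, logTaylor_succ, logTaylor_zero]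
    simp
    ring
  rw [h3, norm_neg] at h2
  have h4 : (log (1 + -z) - (-z - z ^ 2 / 2)).re = Real.log ‖1 - z‖ + z.re + 1 / 2 * (z ^ 2).re := by
    rw [← sub_eq_add_neg, sub_re, log_re, sub_re, neg_re]
    have : (z ^ 2 / 2).re = (z ^ 2).re / 2 := by
      simp
    rw [this]; ring
  have h5 := Complex.abs_re_le_norm (log (1 + -z) - (-z - z ^ 2 / 2))
  rw [h4] at h5
  have h6 : |-Real.log ‖1 - z‖ - z.re - 1 / 2 * (z ^ 2).re| =
      |Real.log ‖1 - z‖ + z.re + 1 / 2 * (z ^ 2).re| := by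
    rw [← abs_neg]; congr 1; ring
  rw [h6]
  refine h5.trans (h2.trans ?_)
  have h7 : (1 - ‖z‖)⁻¹ ≤ 4 := by
    rw [inv_le_comm₀ (by linarith) (by norm_num)]
    linarith
  have h8 : 0 ≤ ‖z‖ ^ 3 := by positivity
  push_cast
  norm_num
  nlinarith

lemma sum_sq {M : Type*} [AddCommMonoid M] (X : ℕ) (G : ℕ → M)
    (h : ∀ n, (¬ ∃ p : ℕ, p.Prime ∧ p ≤ X ∧ n = p ^ 2) → G n = 0) :
    ∑ n ∈ Finset.Icc 1 (X ^ 2), G n = ∑ p ∈ (Finset.Icc 1 X).filter Nat.Prime, G (p ^ 2) := by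
  classical
  rw [← Finset.sum_image (f := G) (g := fun p : ℕ => p ^ 2)]
  · symm
    apply Finset.sum_subset
    · intro n hn
      rw [Finset.mem_image] at hn
      obtain ⟨p, hp, rfl⟩ := hn
      rw [Finset.mem_filter, Finset.mem_Icc] at hp
      rw [Finset.mem_Icc]
      exact ⟨Nat.one_le_pow _ _ hp.1.1, Nat.pow_le_pow_left hp.1.2 2⟩
    · intro n _ hn2
      apply h
      rintro ⟨p, hp1, hp2, rfl⟩
      apply hn2
      rw [Finset.mem_image]
      exact ⟨p, Finset.mem_filter.2 ⟨Finset.mem_Icc.2 ⟨hp1.one_le, hp2⟩, hp1⟩, rfl⟩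
  · intro a _ b _ hab
    exact Nat.pow_left_injective (n := 2) (by norm_num) hab

open Classical in
/-- the coefficients of the squares of the primes -/
def c2 (X n : ℕ) : ℂ := if ∃ p : ℕ, p.Prime ∧ p ≤ X ∧ n = p ^ 2 then 1 else 0

lemma z_norm {p : ℕ} (hp : p.Prime) (t : ℝ) :
    ‖(p : ℂ) ^ (-(1 / 2 + t * I))‖ = (p : ℝ) ^ (-(1 / 2) : ℝ) := by
  rw [Complex.norm_natCast_cpow_of_pos hp.pos]
  congr 1
  simp

lemma z_small {p : ℕ} (hp : p.Prime) (t : ℝ) : ‖(p : ℂ) ^ (-(1 / 2 + t * I))‖ ≤ 3 / 4 := by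
  rw [z_norm hp]
  have h1 : (2 : ℝ) ≤ p := by exact_mod_cast hp.two_le
  have h2 : (p : ℝ) ^ (-(1 / 2) : ℝ) ≤ (2 : ℝ) ^ (-(1 / 2) : ℝ) :=
    Real.rpow_le_rpow_of_nonpos (by norm_num) h1 (by norm_num)
  refine h2.trans ?_
  have h3 : ((2 : ℝ) ^ (-(1 / 2) : ℝ)) ^ 2 = 1 / 2 := by
    rw [← Real.rpow_natCast, ← Real.rpow_mul (by norm_num)]
    norm_num
  have h4 : 0 ≤ (2 : ℝ) ^ (-(1 / 2) : ℝ) := by positivity
  nlinarith

lemma z_cube {p : ℕ} (hp : p.Prime) (t : ℝ) :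
    ‖(p : ℂ) ^ (-(1 / 2 + t * I))‖ ^ 3 = ((p : ℝ) ^ (3 / 2 : ℝ))⁻¹ := by
  rw [z_norm hp, ← Real.rpow_natCast, ← Real.rpow_mul (by positivity), ← Real.rpow_neg (by positivity)]
  norm_num

lemma EP_close (X : ℕ) (t : ℝ) :
    |EP X t - (dp X (pc X) t).re| ≤ 1 / 2 * ‖dp (X ^ 2) (c2 X) t‖ + 2 * Z0 := by
  classical
  set P := (Finset.Icc 1 X).filter Nat.Prime with hP
  have e1 : dp X (pc X) t = ∑ p ∈ P, (p : ℂ) ^ (-(1 / 2 + t * I)) := by
    unfold dp
    rw [hP, Finset.sum_filter]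
    refine Finset.sum_congr rfl fun n hn => ?_
    unfold pc
    have hn2 := (Finset.mem_Icc.1 hn).2
    by_cases h : n.Prime
    · rw [if_pos ⟨h, hn2⟩, if_pos h, one_mul]
    · rw [if_neg (fun h' => h h'.1), if_neg h, zero_mul]
  have e2 : dp (X ^ 2) (c2 X) t = ∑ p ∈ P, ((p : ℂ) ^ (-(1 / 2 + t * I))) ^ 2 := by
    unfold dp
    rw [sum_sq X (fun n => c2 X n * (n : ℂ) ^ (-(1 / 2 + t * I)))]
    · refine Finset.sum_congr rfl fun p hp => ?_
      obtain ⟨h1, h2⟩ := Finset.mem_filter.1 hp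
      have h3 : c2 X (p ^ 2) = 1 := if_pos ⟨p, h2, (Finset.mem_Icc.1 h1).2, rfl⟩
      rw [h3, one_mul]
      push_cast
      rw [← Complex.natCast_cpow_natCast_mul]
      rw [← Complex.cpow_nat_mul]
    · intro n hn
      have : c2 X n = 0 := if_neg hn
      rw [this, zero_mul]
  have e3 : EP X t - (dp X (pc X) t).re - 1 / 2 * (dp (X ^ 2) (c2 X) t).re =
      ∑ p ∈ P, (-Real.log ‖1 - (p : ℂ) ^ (-(1 / 2 + t * I))‖ - ((p : ℂ) ^ (-(1 / 2 + t * I))).re -
        1 / 2 * (((p : ℂ) ^ (-(1 / 2 + t * I))) ^ 2).re) := by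
    rw [e1, e2, re_sum, re_sum, Finset.mul_sum, Finset.sum_sub_distrib, Finset.sum_sub_distrib]
    unfold EP
    rw [Finset.sum_neg_distrib]
  have e4 : |EP X t - (dp X (pc X) t).re - 1 / 2 * (dp (X ^ 2) (c2 X) t).re| ≤ 2 * Z0 := by
    rw [e3]
    refine (Finset.abs_sum_le_sum_abs _ _).trans ?_
    calc _ ≤ ∑ p ∈ P, 2 * ((p : ℝ) ^ (3 / 2 : ℝ))⁻¹ := by
          refine Finset.sum_le_sum fun p hp => ?_
          have h2 := (Finset.mem_filter.1 hp).2
          rw [← z_cube h2 t]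
          exact log_tail (z_small h2 t)
      _ ≤ 2 * Z0 := by
        rw [← Finset.mul_sum]
        exact mul_le_mul_of_nonneg_left (Z0_le P) (by norm_num)
  have e5 := Complex.abs_re_le_norm (dp (X ^ 2) (c2 X) t)
  have e6 := abs_le.1 e4
  have e7 := abs_le.1 e5
  rw [abs_le]
  constructor <;> linarith

lemma N2_c2 (X : ℕ) : N2 (X ^ 2) (c2 X) ≤ Z0 := by
  classical
  unfold N2
  rw [sum_sq X (fun n => ‖c2 X n‖ ^ 2 / (n : ℝ))]
  · refine le_trans (Finset.sum_le_sum fun p hp => ?_) (Z0_le ((Finset.Icc 1 X).filter Nat.Prime))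
    obtain ⟨h1, h2⟩ := Finset.mem_filter.1 hp
    have h3 : c2 X (p ^ 2) = 1 := if_pos ⟨p, h2, (Finset.mem_Icc.1 h1).2, rfl⟩
    rw [h3, norm_one, one_pow, one_div]
    have h4 : (1 : ℝ) ≤ p := by exact_mod_cast h2.one_le
    apply inv_anti₀ (by positivity)
    push_cast
    rw [← Real.rpow_natCast]
    exact Real.rpow_le_rpow_of_exponent_le h4 (by norm_num)
  · intro n hn
    have : c2 X n = 0 := if_neg hn
    rw [this]; simp

lemma dp_one (t : ℝ) : dp 1 (fun _ => 1) t = 1 := by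
  unfold dp; simp

lemma N2_one : N2 1 (fun _ => 1) = 1 := by
  unfold N2; simp

theorem t_CLZ : J_CLZ := by
  classical
  intro hTHD hSAMP
  obtain ⟨θ, δ₀, hθ, hδ₀, hT⟩ := hTHD 2
  obtain ⟨θ', hθ', -, hS⟩ := hSAMP 1 one_pos
  refine ⟨min δ₀ (θ' / 2), lt_min hδ₀ (by linarith), fun δ d hδ hδ2 hd => ?_⟩
  obtain ⟨C₀, hC₀, hT'⟩ := hT δ d hδ (hδ2.trans (min_le_left _ _)) hd
  refine ⟨2 * C₀ + 2 * (Z0 + 8 * Z0 ^ 2 * 2), by have := Z0_nonneg; positivity, ?_⟩
  filter_upwards [hT', hS, eventually_gt_atTop 1] with T h1 h2 hT1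
  have hT0 : 0 < T := by linarith
  have hL : 0 < Real.log T := Real.log_pos hT1
  set X := ⌊T ^ δ⌋₊ with hX
  have hN1 : ((1 : ℕ) : ℝ) ≤ T ^ θ := by
    rw [Nat.cast_one]; exact Real.one_le_rpow hT1.le hθ.le
  have hN1' : ((1 : ℕ) : ℝ) ≤ T ^ θ' := by
    rw [Nat.cast_one]; exact Real.one_le_rpow hT1.le hθ'.le
  have hX2 : ((X ^ 2 : ℕ) : ℝ) ≤ T ^ θ' := by
    push_cast
    have h3 : (X : ℝ) ≤ T ^ δ := Nat.floor_le (by positivity)
    calc (X : ℝ) ^ 2 ≤ (T ^ δ) ^ 2 := pow_le_pow_left₀ (Nat.cast_nonneg _) h3 2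
      _ = T ^ (δ * 2) := by rw [← Real.rpow_natCast, ← Real.rpow_mul hT0.le]; norm_num
      _ ≤ T ^ θ' := Real.rpow_le_rpow_of_exponent_le hT1.le (by
          have := hδ2.trans (min_le_right _ _); linarith)
  obtain ⟨a1, a2⟩ := h1 1 hN1 (fun _ => 1)
  rw [N2_one, mul_one] at a1 a2
  simp only [dp_one, norm_one, one_pow, mul_one] at a1 a2
  -- sums over all the zeros
  have up : ∀ (N : ℕ), (N : ℝ) ≤ T ^ θ' → ∀ b : ℕ → ℂ,
      ∑ s ∈ H370.Zf riemannZeta T (2 * T), (mz s : ℝ) * ‖dp N b s.im‖ ^ 2 ≤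
        2 * (Real.log T * T) * N2 N b := by
    intro N hN b
    have h3 := (abs_le.1 (h2 N hN b).2.2).2
    have h4 : 0 ≤ N2 N b := Finset.sum_nonneg fun n _ => by positivity
    have h5 : Real.log T / (2 * Real.pi) * (T * N2 N b) ≤ Real.log T * (T * N2 N b) := by
      apply mul_le_mul_of_nonneg_right _ (by positivity)
      apply div_le_self hL.le
      linarith [Real.pi_gt_three]
    nlinarith
  have b1 := up 1 hN1' (fun _ => 1)
  rw [N2_one, mul_one] at b1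
  simp only [dp_one, norm_one, one_pow, mul_one] at b1
  have b2 := up (X ^ 2) hX2 (c2 X)
  have b3 : ∑ s ∈ H370.Zf riemannZeta T (2 * T), (mz s : ℝ) * ‖dp (X ^ 2) (c2 X) s.im‖ ^ 2 ≤
      2 * (Real.log T * T) * Z0 :=
    b2.trans (mul_le_mul_of_nonneg_left (N2_c2 X) (by positivity))
  -- the square of the difference, over simple critical zeros
  have key : ∀ S : Finset ℂ, S ⊆ (H370.Zf riemannZeta T (2 * T)).filter
      (fun s => s.re = 1 / 2 ∧ mz s = 1) →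
      ∑ s ∈ S, (EP X s.im - (dp X (pc X) s.im).re) ^ 2 ≤ (Z0 + 8 * Z0 ^ 2 * 2) * (Real.log T * T) := by
    intro S hS
    calc ∑ s ∈ S, (EP X s.im - (dp X (pc X) s.im).re) ^ 2
        ≤ ∑ s ∈ S, (mz s : ℝ) * (1 / 2 * ‖dp (X ^ 2) (c2 X) s.im‖ ^ 2 + 8 * Z0 ^ 2) := by
          refine Finset.sum_le_sum fun s hs => ?_
          have h3 := (Finset.mem_filter.1 (hS hs)).2.2
          rw [h3, Nat.cast_one, one_mul]
          have h4 := EP_close X s.im
          have h5 := norm_nonneg (dp (X ^ 2) (c2 X) s.im)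
          have h6 := Z0_nonneg
          have h7 : (EP X s.im - (dp X (pc X) s.im).re) ^ 2 ≤
              (1 / 2 * ‖dp (X ^ 2) (c2 X) s.im‖ + 2 * Z0) ^ 2 := by
            rw [← sq_abs]
            exact pow_le_pow_left₀ (abs_nonneg _) h4 2
          refine h7.trans ?_
          nlinarith [sq_nonneg (1 / 2 * ‖dp (X ^ 2) (c2 X) s.im‖ - 2 * Z0)]
      _ ≤ ∑ s ∈ H370.Zf riemannZeta T (2 * T),
          (mz s : ℝ) * (1 / 2 * ‖dp (X ^ 2) (c2 X) s.im‖ ^ 2 + 8 * Z0 ^ 2) := by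
          refine Finset.sum_le_sum_of_subset_of_nonneg (hS.trans (Finset.filter_subset _ _))
            fun s _ _ => by positivity
      _ = 1 / 2 * (∑ s ∈ H370.Zf riemannZeta T (2 * T), (mz s : ℝ) * ‖dp (X ^ 2) (c2 X) s.im‖ ^ 2) +
          8 * Z0 ^ 2 * ∑ s ∈ H370.Zf riemannZeta T (2 * T), (mz s : ℝ) := by
          rw [Finset.mul_sum, Finset.mul_sum, ← Finset.sum_add_distrib]
          refine Finset.sum_congr rfl fun s _ => by ring
      _ ≤ 1 / 2 * (2 * (Real.log T * T) * Z0) + 8 * Z0 ^ 2 * (2 * (Real.log T * T)) := by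
          gcongr
      _ = _ := by ring
  constructor
  · have hsub : ZI d T ⊆ (H370.Zf riemannZeta T (2 * T)).filter
        (fun s => s.re = 1 / 2 ∧ mz s = 1) := by
      intro s hs
      obtain ⟨k1, k2, k3, -⟩ := Finset.mem_filter.1 hs
      exact Finset.mem_filter.2 ⟨k1, k2, k3⟩
    have k := key _ hsub
    calc ∑ s ∈ ZI d T, (Real.log ‖deriv riemannZeta s‖ - Real.log (Real.log T) -
          (dp X (pc X) s.im).re) ^ 2
        ≤ ∑ s ∈ ZI d T, (2 * |Real.log ‖deriv riemannZeta s‖ - Real.log (Real.log T) -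
          EP X s.im| ^ 2 + 2 * (EP X s.im - (dp X (pc X) s.im).re) ^ 2) := by
          refine Finset.sum_le_sum fun s _ => ?_
          rw [sq_abs]
          nlinarith [sq_nonneg ((Real.log ‖deriv riemannZeta s‖ - Real.log (Real.log T) -
            EP X s.im) - (EP X s.im - (dp X (pc X) s.im).re))]
      _ ≤ _ := by
        rw [Finset.sum_add_distrib, ← Finset.mul_sum, ← Finset.mul_sum]
        nlinarith
  · have k := key _ (Finset.Subset.refl _)
    calc ∑ s ∈ (H370.Zf riemannZeta T (2 * T)).filter (fun s => s.re = 1 / 2 ∧ mz s = 1),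
          (max 0 (Real.log ‖deriv riemannZeta s‖ - Real.log (Real.log T) -
          (dp X (pc X) s.im).re)) ^ 2
        ≤ ∑ s ∈ (H370.Zf riemannZeta T (2 * T)).filter (fun s => s.re = 1 / 2 ∧ mz s = 1),
          (2 * (max 0 (Real.log ‖deriv riemannZeta s‖ - Real.log (Real.log T) -
          EP X s.im)) ^ 2 + 2 * (EP X s.im - (dp X (pc X) s.im).re) ^ 2) := by
          refine Finset.sum_le_sum fun s _ => ?_
          set u := Real.log ‖deriv riemannZeta s‖ - Real.log (Real.log T) with hu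
          set v := EP X s.im
          set w := (dp X (pc X) s.im).re
          have k1 : max 0 (u - w) ≤ max 0 (u - v) + |v - w| := by
            refine max_le (by positivity) ?_
            have := le_max_right 0 (u - v)
            have := le_abs_self (v - w)
            linarith
          have k2 : (max 0 (u - w)) ^ 2 ≤ (max 0 (u - v) + |v - w|) ^ 2 :=
            pow_le_pow_left₀ (le_max_left _ _) k1 2
          have k3 : |v - w| ^ 2 = (v - w) ^ 2 := sq_abs _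
          nlinarith [sq_nonneg (max 0 (u - v) - |v - w|)]
      _ ≤ _ := by
        rw [Finset.sum_add_distrib, ← Finset.mul_sum, ← Finset.mul_sum]
        nlinarith

end

end Pool.Agent.Q96.UM
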