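import Pool.Agent.Q97.UM.Stm18
import Pool.Agent.H999R5.Inj.T_GAU

set_option autoImplicit false

open Pool.Agent Pool.Agent.Q97.UM
open Filter Topology MeasureTheory Complex ProbabilityTheory

namespace Pool.Agent.Q96.UM

noncomputable section

/-- functions which are signed combinations, with limit mean `m` -/
def Good (D : ℕ) (f : ℕ → ℝ → ℝ) (m : ℝ) : Prop := ∃ C : ℝ, 0 ≤ C ∧ ∀ ε : ℝ, 0 < ε →
  ∀ᶠ X : ℕ in atTop, ∀ N : ℕ, X ^ D ≤ N →
  ∃ (J : ℕ) (a : Fin J → ℝ) (b : Fin J → ℕ → ℂ), (∀ t : ℝ, WT N a b t = f X t) ∧ VW N a b ≤ C ∧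
    |MW N a b - m| ≤ ε

lemma N2_nonneg (N : ℕ) (b : ℕ → ℂ) : 0 ≤ N2 N b := Finset.sum_nonneg fun n _ => by positivity

lemma Good.add {D : ℕ} {f g : ℕ → ℝ → ℝ} {m m' : ℝ} (hf : Good D f m) (hg : Good D g m') :
    Good D (fun X t => f X t + g X t) (m + m') := by
  obtain ⟨C, hC, h1⟩ := hf
  obtain ⟨C', hC', h2⟩ := hg
  refine ⟨C + C', by positivity, fun ε hε => ?_⟩
  filter_upwards [h1 (ε / 2) (by positivity), h2 (ε / 2) (by positivity)] with X k1 k2 N hN
  obtain ⟨J, a, b, l1, l2, l3⟩ := k1 N hN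
  obtain ⟨J', a', b', l1', l2', l3'⟩ := k2 N hN
  refine ⟨J + J', Fin.append a a', Fin.append b b', fun t => ?_, ?_, ?_⟩
  · unfold WT
    rw [Fin.sum_univ_add]
    simp only [Fin.append_left, Fin.append_right]
    rw [← l1 t, ← l1' t]
    rfl
  · unfold VW at *
    rw [Fin.sum_univ_add]
    simp only [Fin.append_left, Fin.append_right]
    linarith
  · unfold MW at *
    rw [Fin.sum_univ_add]
    simp only [Fin.append_left, Fin.append_right]
    rw [abs_le] at *
    constructor <;> linarith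

lemma Good.smul {D : ℕ} {f : ℕ → ℝ → ℝ} {m : ℝ} (c : ℝ) (hf : Good D f m) :
    Good D (fun X t => c * f X t) (c * m) := by
  obtain ⟨C, hC, h1⟩ := hf
  refine ⟨|c| * C, by positivity, fun ε hε => ?_⟩
  filter_upwards [h1 (ε / (|c| + 1)) (by positivity)] with X k1 N hN
  obtain ⟨J, a, b, l1, l2, l3⟩ := k1 N hN
  refine ⟨J, fun i => c * a i, b, fun t => ?_, ?_, ?_⟩
  · rw [← l1 t]
    unfold WT
    rw [Finset.mul_sum]
    exact Finset.sum_congr rfl fun i _ => by ring
  · have : VW N (fun i => c * a i) b = |c| * VW N a b := by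
      unfold VW
      rw [Finset.mul_sum]
      exact Finset.sum_congr rfl fun i _ => by rw [abs_mul]; ring
    rw [this]
    exact mul_le_mul_of_nonneg_left l2 (abs_nonneg _)
  · have : MW N (fun i => c * a i) b = c * MW N a b := by
      unfold MW
      rw [Finset.mul_sum]
      exact Finset.sum_congr rfl fun i _ => by ring
    rw [this, ← mul_sub, abs_mul]
    calc |c| * |MW N a b - m| ≤ |c| * (ε / (|c| + 1)) := mul_le_mul_of_nonneg_left l3 (abs_nonneg _)
      _ ≤ (|c| + 1) * (ε / (|c| + 1)) := by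
        apply mul_le_mul_of_nonneg_right (by linarith) (by positivity)
      _ = ε := by field_simp

lemma Good.zero (D : ℕ) : Good D (fun _ _ => 0) 0 := by
  refine ⟨0, le_rfl, fun ε hε => Eventually.of_forall fun X N _ => ⟨0, Fin.elim0, Fin.elim0,
    fun t => ?_, ?_, ?_⟩⟩
  · simp [WT]
  · simp [VW]
  · simp [MW, hε.le]

lemma Good.sum {D : ℕ} {ι : Type} (s : Finset ι) (f : ι → ℕ → ℝ → ℝ) (m : ι → ℝ)
    (h : ∀ i ∈ s, Good D (f i) (m i)) :
    Good D (fun X t => ∑ i ∈ s, f i X t) (∑ i ∈ s, m i) := by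
  classical
  induction s using Finset.induction_on with
  | empty => simpa using Good.zero D
  | insert i s hi ih =>
    have h1 := (h i (Finset.mem_insert_self i s)).add (ih fun j hj => h j (Finset.mem_insert_of_mem hj))
    simp only [Finset.sum_insert hi]
    exact h1

lemma Good.congr {D : ℕ} {f g : ℕ → ℝ → ℝ} {m : ℝ} (hf : Good D f m)
    (h : ∀ᶠ X : ℕ in atTop, ∀ t, f X t = g X t) : Good D g m := by
  obtain ⟨C, hC, h1⟩ := hf
  refine ⟨C, hC, fun ε hε => ?_⟩
  filter_upwards [h1 ε hε, h] with X k1 k2 N hN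
  obtain ⟨J, a, b, l1, l2, l3⟩ := k1 N hN
  exact ⟨J, a, b, fun t => (l1 t).trans (k2 t), l2, l3⟩

/-! ### Linear algebra of Dirichlet polynomials -/

lemma dp_mul (N : ℕ) (c : ℂ) (b : ℕ → ℂ) (t : ℝ) : dp N (fun n => c * b n) t = c * dp N b t := by
  unfold dp
  rw [Finset.mul_sum]
  exact Finset.sum_congr rfl fun n _ => by ring

lemma dp_add (N : ℕ) (b b' : ℕ → ℂ) (t : ℝ) :
    dp N (fun n => b n + b' n) t = dp N b t + dp N b' t := by
  unfold dp
  rw [← Finset.sum_add_distrib]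
  exact Finset.sum_congr rfl fun n _ => by ring

lemma dp_sub (N : ℕ) (b b' : ℕ → ℂ) (t : ℝ) :
    dp N (fun n => b n - b' n) t = dp N b t - dp N b' t := by
  unfold dp
  rw [← Finset.sum_sub_distrib]
  exact Finset.sum_congr rfl fun n _ => by ring

lemma dp_ext {M N : ℕ} (h : M ≤ N) (b : ℕ → ℂ) (hb : ∀ n, M < n → b n = 0) (t : ℝ) :
    dp N b t = dp M b t := by
  unfold dp
  symm
  apply Finset.sum_subset (Finset.Icc_subset_Icc le_rfl h)
  intro n hn hn'
  rw [Finset.mem_Icc] at hn hn'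
  rw [hb n (by omega), zero_mul]

lemma N2_ext {M N : ℕ} (h : M ≤ N) (b : ℕ → ℂ) (hb : ∀ n, M < n → b n = 0) :
    N2 N b = N2 M b := by
  unfold N2
  symm
  apply Finset.sum_subset (Finset.Icc_subset_Icc le_rfl h)
  intro n hn hn'
  rw [Finset.mem_Icc] at hn hn'
  rw [hb n (by omega)]; simp

lemma N2_mul (N : ℕ) (c : ℂ) (b : ℕ → ℂ) : N2 N (fun n => c * b n) = ‖c‖ ^ 2 * N2 N b := by
  unfold N2
  rw [Finset.mul_sum]
  exact Finset.sum_congr rfl fun n _ => by rw [norm_mul]; ring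

/-- standard deviation -/
def sg (X : ℕ) : ℝ := Real.sqrt (Real.log (Real.log X) / 2)

/-- the normalised prime sum -/
def un (X : ℕ) (t : ℝ) : ℂ := ((sg X)⁻¹ : ℝ) * dp X (pc X) t

lemma RN_eq (X : ℕ) (t : ℝ) : RN X t = (un X t).re := by
  unfold RN un
  rw [re_ofReal_mul, div_eq_inv_mul]
  rfl

lemma sg_pos : ∀ᶠ X : ℕ in atTop, 0 < sg X := by
  have h1 : Tendsto (fun X : ℕ => Real.log (Real.log X)) atTop atTop :=
    Real.tendsto_log_atTop.comp (Real.tendsto_log_atTop.comp tendsto_natCast_atTop_atTop)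
  filter_upwards [h1.eventually_gt_atTop 0] with X hX
  exact Real.sqrt_pos.2 (by positivity)

/-- normalised coefficients -/
def bt (X j n : ℕ) : ℂ := (((sg X)⁻¹ ^ j : ℝ) : ℂ) * pk X j n

lemma dp_bt (h : S_PWK) {D X j N : ℕ} (hj : j ≤ D) (hX : 1 ≤ X) (hN : X ^ D ≤ N) (t : ℝ) :
    dp N (bt X j) t = un X t ^ j := by
  have h1 : X ^ j ≤ N := (Nat.pow_le_pow_right hX hj).trans hN
  have h2 : dp N (pk X j) t = dp X (pc X) t ^ j := by
    rw [← h.1 j X t]
    refine dp_ext h1 _ (fun n hn => ?_) t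
    by_contra hne
    have := (h.2.1 j X n hne).2.1
    omega
  have h3 : dp N (bt X j) t = (((sg X)⁻¹ ^ j : ℝ) : ℂ) * dp N (pk X j) t := dp_mul N _ _ t
  rw [h3, h2]
  unfold un
  rw [mul_pow]
  push_cast
  rfl

lemma N2_bt (h : S_PWK) {D X j N : ℕ} (hj : j ≤ D) (hX : 1 ≤ X) (hN : X ^ D ≤ N) :
    N2 N (bt X j) = ((sg X)⁻¹ ^ j) ^ 2 * N2 (X ^ j) (pk X j) := by
  have h1 : X ^ j ≤ N := (Nat.pow_le_pow_right hX hj).trans hN
  have h2 : N2 N (pk X j) = N2 (X ^ j) (pk X j) := by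
    refine N2_ext h1 _ (fun n hn => ?_)
    by_contra hne
    have := (h.2.1 j X n hne).2.1
    omega
  have h3 : N2 N (bt X j) = ‖(((sg X)⁻¹ ^ j : ℝ) : ℂ)‖ ^ 2 * N2 N (pk X j) := N2_mul N _ _
  rw [h3, h2, Complex.norm_real, Real.norm_eq_abs, sq_abs]

lemma N2_lim (h : S_PWK) (j : ℕ) : Tendsto (fun X : ℕ => ((sg X)⁻¹ ^ j) ^ 2 * N2 (X ^ j) (pk X j))
    atTop (𝓝 (j.factorial * 2 ^ j)) := by
  have h1 := (h.2.2 j).mul_const ((2 : ℝ) ^ j)
  refine h1.congr' ?_
  have h2 : Tendsto (fun X : ℕ => Real.log (Real.log X)) atTop atTop :=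
    Real.tendsto_log_atTop.comp (Real.tendsto_log_atTop.comp tendsto_natCast_atTop_atTop)
  filter_upwards [h2.eventually_gt_atTop 0] with X hX
  have h3 : ((sg X)⁻¹ ^ j) ^ 2 = 2 ^ j / Real.log (Real.log X) ^ j := by
    rw [← pow_mul, mul_comm j 2, pow_mul, inv_pow]
    unfold sg
    rw [Real.sq_sqrt (by positivity), inv_div, div_pow]
  rw [h3]
  ring

lemma bt_disj (h : S_PWK) {j l : ℕ} (hjl : j ≠ l) (X n : ℕ) : bt X j n = 0 ∨ bt X l n = 0 := by
  by_contra hcon
  push Not at hcon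
  obtain ⟨h1, h2⟩ := hcon
  have h3 := (h.2.1 j X n (right_ne_zero_of_mul h1)).2.2
  have h4 := (h.2.1 l X n (right_ne_zero_of_mul h2)).2.2
  exact hjl (h3.symm.trans h4)

lemma N2_add_disj (N : ℕ) (b b' : ℕ → ℂ) (hd : ∀ n, b n = 0 ∨ b' n = 0) :
    N2 N (fun n => b n + b' n) = N2 N b + N2 N b' := by
  unfold N2
  rw [← Finset.sum_add_distrib]
  refine Finset.sum_congr rfl fun n _ => ?_
  rcases hd n with h | h <;> simp [h]

lemma N2_sub_disj (N : ℕ) (b b' : ℕ → ℂ) (hd : ∀ n, b n = 0 ∨ b' n = 0) :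
    N2 N (fun n => b n - b' n) = N2 N b + N2 N b' := by
  unfold N2
  rw [← Finset.sum_add_distrib]
  refine Finset.sum_congr rfl fun n _ => ?_
  rcases hd n with h | h <;> simp [h]

lemma re_mul_conj (u v : ℂ) : (u * (starRingEnd ℂ) v).re =
    1 / 4 * ‖u + v‖ ^ 2 + -(1 / 4) * ‖u - v‖ ^ 2 := by
  rw [← Complex.normSq_eq_norm_sq, ← Complex.normSq_eq_norm_sq, Complex.normSq_apply,
    Complex.normSq_apply]
  simp
  ring

/-- the base case -/
lemma Good.base (h : S_PWK) {D j l : ℕ} (hj : j ≤ D) (hl : l ≤ D) :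
    Good D (fun X t => (un X t ^ j * (starRingEnd ℂ) (un X t ^ l)).re)
      (if j = l then (j.factorial * 2 ^ j : ℝ) else 0) := by
  refine ⟨(j.factorial * 2 ^ j + 1) + (l.factorial * 2 ^ l + 1), by positivity, fun ε hε => ?_⟩
  have c1 := (Metric.tendsto_nhds.1 (N2_lim h j)) (min ε 1) (lt_min hε one_pos)
  have c2 := (Metric.tendsto_nhds.1 (N2_lim h l)) (min ε 1) (lt_min hε one_pos)
  filter_upwards [c1, c2, eventually_ge_atTop 1] with X d1 d2 hX N hN
  rw [← N2_bt h hj hX hN, Real.dist_eq, abs_lt] at d1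
  rw [← N2_bt h hl hX hN, Real.dist_eq, abs_lt] at d2
  have m1 := min_le_left ε 1
  have m2 := min_le_right ε 1
  refine ⟨2, ![1 / 4, -(1 / 4)], ![fun n => bt X j n + bt X l n, fun n => bt X j n - bt X l n],
    fun t => ?_, ?_, ?_⟩
  · unfold WT
    rw [Fin.sum_univ_two]
    simp only [Matrix.cons_val_zero, Matrix.cons_val_one]
    rw [dp_add, dp_sub, dp_bt h hj hX hN, dp_bt h hl hX hN, re_mul_conj]
  · unfold VW
    rw [Fin.sum_univ_two]
    simp only [Matrix.cons_val_zero, Matrix.cons_val_one]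
    rw [abs_neg, abs_of_pos (by norm_num : (0 : ℝ) < 1 / 4)]
    have n1 := N2_nonneg N (bt X j)
    have n2 := N2_nonneg N (bt X l)
    by_cases hjl : j = l
    · subst hjl
      have e1 : N2 N (fun n => bt X j n + bt X j n) = 4 * N2 N (bt X j) := by
        have : (fun n => bt X j n + bt X j n) = fun n => (2 : ℂ) * bt X j n := by
          funext n; ring
        rw [this, N2_mul]; norm_num
      have e2 : N2 N (fun n => bt X j n - bt X j n) = 0 := by
        simp [N2]
      rw [e1, e2]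
      linarith
    · rw [N2_add_disj N _ _ (bt_disj h hjl X), N2_sub_disj N _ _ (bt_disj h hjl X)]
      linarith
  · unfold MW
    rw [Fin.sum_univ_two]
    simp only [Matrix.cons_val_zero, Matrix.cons_val_one]
    by_cases hjl : j = l
    · subst hjl
      have e1 : N2 N (fun n => bt X j n + bt X j n) = 4 * N2 N (bt X j) := by
        have : (fun n => bt X j n + bt X j n) = fun n => (2 : ℂ) * bt X j n := by
          funext n; ring
        rw [this, N2_mul]; norm_num
      have e2 : N2 N (fun n => bt X j n - bt X j n) = 0 := by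
        simp [N2]
      rw [e1, e2, if_pos rfl, abs_le]
      constructor <;> linarith
    · rw [N2_add_disj N _ _ (bt_disj h hjl X), N2_sub_disj N _ _ (bt_disj h hjl X), if_neg hjl,
        abs_le]
      constructor <;> linarith

/-! ### Gaussian moments -/

lemma gm_even (i : ℕ) : ∫ x, x ^ (2 * i) ∂(gaussianReal 0 1) = (2 * i).factorial / (2 ^ i * i.factorial) := by
  induction i with
  | zero => simp
  | succ i ih =>
    have h1 := H999R5.Inj.GAUx.rec_one (2 * i + 1)
    have e1 : 2 * (i + 1) = 2 * i + 1 + 1 := by ring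
    have e2 : 2 * i + 1 - 1 = 2 * i := by omega
    rw [e1, h1, e2, ih, Nat.factorial_succ, Nat.factorial_succ, Nat.factorial_succ]
    push_cast
    field_simp
    ring

lemma gm_odd (i : ℕ) : ∫ x, x ^ (2 * i + 1) ∂(gaussianReal 0 1) = 0 := by
  induction i with
  | zero =>
    have h1 := H999R5.Inj.GAUx.rec_one 0
    simp at h1 ⊢
  | succ i ih =>
    have h1 := H999R5.Inj.GAUx.rec_one (2 * i + 2)
    have e1 : 2 * (i + 1) + 1 = 2 * i + 2 + 1 := by ring
    have e2 : 2 * i + 2 - 1 = 2 * i + 1 := by omega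
    rw [e1, h1, e2, ih, mul_zero]

lemma gm_sum (k : ℕ) : ∑ j ∈ Finset.range (k + 1), (1 / 2) ^ k * (k.choose j : ℝ) *
    (if j = k - j then (j.factorial * 2 ^ j : ℝ) else 0) = ∫ x, x ^ k ∂(gaussianReal 0 1) := by
  rcases Nat.even_or_odd' k with ⟨i, rfl | rfl⟩
  · rw [gm_even, Finset.sum_eq_single i]
    · rw [if_pos (by omega)]
      have h1 := Nat.choose_mul_factorial_mul_factorial (n := 2 * i) (k := i) (by omega)
      have e2 : 2 * i - i = i := by omega
      rw [e2] at h1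
      have h2 : ((2 * i).factorial : ℝ) = ((2 * i).choose i : ℝ) * i.factorial * i.factorial := by
        rw [← h1]; push_cast; ring
      have h3 : (i.factorial : ℝ) ≠ 0 := by exact_mod_cast i.factorial_ne_zero
      rw [h2, pow_mul]
      have h5 : ((1 : ℝ) / 2 ^ 2) ^ i * (2 ^ i) ^ 2 = 1 := by
        rw [← pow_mul, mul_comm i 2, pow_mul, ← mul_pow]; norm_num
      field_simp
      linear_combination ((2 * i).choose i : ℝ) * h5
    · intro j _ hj
      rw [if_neg (by omega), mul_zero]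
    · intro hi
      rw [Finset.mem_range] at hi
      omega
  · rw [gm_odd]
    refine Finset.sum_eq_zero fun j _ => ?_
    rw [if_neg (by omega), mul_zero]

lemma re_pow (u : ℂ) (k : ℕ) : u.re ^ k = ∑ j ∈ Finset.range (k + 1), (1 / 2) ^ k *
    (k.choose j : ℝ) * (u ^ j * (starRingEnd ℂ) (u ^ (k - j))).re := by
  have h1 : ((u.re ^ k : ℝ) : ℂ) = ∑ j ∈ Finset.range (k + 1), (((1 / 2) ^ k * (k.choose j : ℝ) : ℝ) : ℂ) *
      (u ^ j * (starRingEnd ℂ) (u ^ (k - j))) := by
    have h2 : (u.re : ℂ) = (1 / 2) * (u + (starRingEnd ℂ) u) := by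
      rw [Complex.add_conj]; push_cast; ring
    rw [ofReal_pow, h2, mul_pow, add_pow, Finset.mul_sum]
    refine Finset.sum_congr rfl fun j _ => ?_
    rw [map_pow]
    push_cast
    ring
  have h3 := congrArg Complex.re h1
  rw [ofReal_re, re_sum] at h3
  rw [h3]
  refine Finset.sum_congr rfl fun j _ => ?_
  rw [re_ofReal_mul]

lemma Good.mono (h : S_PWK) {D k : ℕ} (hk : k ≤ D) :
    Good D (fun X t => RN X t ^ k) (∫ x, x ^ k ∂(gaussianReal 0 1)) := by
  have h1 := Good.sum (D := D) (Finset.range (k + 1))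
    (fun j X t => (1 / 2) ^ k * (k.choose j : ℝ) * (un X t ^ j * (starRingEnd ℂ) (un X t ^ (k - j))).re)
    (fun j => (1 / 2) ^ k * (k.choose j : ℝ) * (if j = k - j then (j.factorial * 2 ^ j : ℝ) else 0))
    (fun j hj => Good.smul _ (Good.base h (by
      have := Finset.mem_range.1 hj; omega) (by omega)))
  rw [gm_sum] at h1
  refine h1.congr (Eventually.of_forall fun X t => ?_)
  rw [RN_eq, re_pow]

theorem t_WID : J_WID := by
  intro h q
  have h1 := Good.sum (D := q.natDegree) (Finset.range (q.natDegree + 1))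
    (fun k X t => q.coeff k * RN X t ^ k) (fun k => q.coeff k * ∫ x, x ^ k ∂(gaussianReal 0 1))
    (fun k hk => Good.smul _ (Good.mono h (by have := Finset.mem_range.1 hk; omega)))
  have h2 : ∑ k ∈ Finset.range (q.natDegree + 1), q.coeff k * ∫ x, x ^ k ∂(gaussianReal 0 1) =
      ∫ x, q.eval x ∂(gaussianReal 0 1) := by
    have e1 : (fun x : ℝ => q.eval x) = fun x => ∑ k ∈ Finset.range (q.natDegree + 1), q.coeff k * x ^ k := by
      funext x
      rw [Polynomial.eval_eq_sum_range]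
    rw [e1, integral_finsetSum _ fun k _ => (H999R5.Inj.GAUx.int_pow k).const_mul _]
    exact Finset.sum_congr rfl fun k _ => (integral_const_mul _ _).symm
  rw [h2] at h1
  have h3 := h1.congr (g := fun X t => q.eval (RN X t)) (Eventually.of_forall fun X t => by
    rw [Polynomial.eval_eq_sum_range])
  exact h3

end

end Pool.Agent.Q96.UM
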